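import Mathlib

set_option autoImplicit false

/-!
Definitions for the structure problem for point-line configurations with many incidences.
-/

namespace Pool.Agent.N394.NF

/-- A line of the plane `ℝ²`. -/
def IsLine (l : Set (ℝ × ℝ)) : Prop :=
  ∃ a b c : ℝ, (a ≠ 0 ∨ b ≠ 0) ∧ l = {p | a * p.1 + b * p.2 = c}

/-- The number of incidences `I(P, L)`. -/
noncomputable def incidences (P : Finset (ℝ × ℝ)) (L : Finset (Set (ℝ × ℝ))) : ℕ :=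
  {q : (ℝ × ℝ) × Set (ℝ × ℝ) | q.1 ∈ P ∧ q.2 ∈ L ∧ q.1 ∈ q.2}.ncard

/-- The projective transformation of the real projective plane with matrix `M` sends the point
`p` of `ℝ²` to the point `q` of `ℝ²` (in particular `p` is not sent to the line at infinity). -/
def ProjMaps (M : Matrix (Fin 3) (Fin 3) ℝ) (p q : ℝ × ℝ) : Prop :=
  (M.mulVec ![p.1, p.2, 1]) 2 ≠ 0 ∧
    q.1 = (M.mulVec ![p.1, p.2, 1]) 0 / (M.mulVec ![p.1, p.2, 1]) 2 ∧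
    q.2 = (M.mulVec ![p.1, p.2, 1]) 1 / (M.mulVec ![p.1, p.2, 1]) 2

/-- Some projective transformation sends all points of `S` into a lattice section
`{1, ..., a} × {1, ..., b}` of size `a b ≤ s`. -/
def InLatticeSection (S : Finset (ℝ × ℝ)) (s : ℝ) : Prop :=
  ∃ M : Matrix (Fin 3) (Fin 3) ℝ, M.det ≠ 0 ∧ ∃ a b : ℕ, (a : ℝ) * b ≤ s ∧
    ∀ p ∈ S, ∃ i j : ℕ, 1 ≤ i ∧ i ≤ a ∧ 1 ≤ j ∧ j ≤ b ∧ ProjMaps M p ((i : ℝ), (j : ℝ))

/-- Some projective transformation sends all points of `S` to points with rational coordinates. -/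
def ProjectivelyRational (S : Finset (ℝ × ℝ)) : Prop :=
  ∃ M : Matrix (Fin 3) (Fin 3) ℝ, M.det ≠ 0 ∧
    ∀ p ∈ S, ∃ x y : ℚ, ProjMaps M p ((x : ℝ), (y : ℝ))

/-- The non-vertical line `y = s x - t`; its dual point is `(s, t)`. -/
def lineOf (d : ℝ × ℝ) : Set (ℝ × ℝ) := {p | p.2 = d.1 * p.1 - d.2}

/-- Statement Q1. -/
def Q1 : Prop :=
  ∀ C₁ c₂ c₃ : ℝ, 0 < C₁ → 0 < c₂ → 0 < c₃ →
    ∃ c C : ℝ, 0 < c ∧ 0 < C ∧ ∃ N : ℕ, ∀ m n : ℕ, N ≤ m → N ≤ n →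
      c₂ * √(n : ℝ) ≤ m → (m : ℝ) ≤ C₁ * (n : ℝ) ^ 2 →
      ∀ (P : Finset (ℝ × ℝ)) (L : Finset (Set (ℝ × ℝ))), P.card = m → L.card = n →
        (∀ l ∈ L, IsLine l) →
        c₃ * (m : ℝ) ^ (2 / 3 : ℝ) * (n : ℝ) ^ (2 / 3 : ℝ) ≤ (incidences P L : ℝ) →
        (∃ P' ⊆ P, c * m ≤ (P'.card : ℝ) ∧ InLatticeSection P' (C * m)) ∨
        (∃ D : Finset (ℝ × ℝ), (∀ d ∈ D, lineOf d ∈ L) ∧ c * n ≤ (D.card : ℝ) ∧
          InLatticeSection D (C * n))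

end Pool.Agent.N394.NF
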