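import Mathlib
import Pool.Agent.N394.RL.Count

set_option autoImplicit false

/-!
A Möbius function takes few rational values on a box of the ring `ℤ[√2]`.
-/

namespace Pool.Agent.N394.NF

open Finset

/-- the number `a + b √2` -/
noncomputable def val (p : ℕ × ℕ) : ℝ := (p.1 : ℝ) + p.2 * √2

theorem irr {u v : ℚ} (h : (u : ℝ) + v * √2 = 0) : u = 0 ∧ v = 0 := by
  by_cases hv : v = 0
  · subst hv
    refine ⟨?_, rfl⟩
    have : (u : ℝ) = 0 := by simpa using h
    exact_mod_cast this
  · exfalso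
    have hv' : (v : ℝ) ≠ 0 := by exact_mod_cast hv
    have : √2 = ((-u / v : ℚ) : ℝ) := by
      push_cast
      field_simp
      linear_combination h
    exact irrational_sqrt_two ⟨_, this.symm⟩

theorem val_inj : Function.Injective val := by
  intro p q h
  unfold val at h
  have h1 : (((p.1 : ℚ) - q.1 : ℚ) : ℝ) + (((p.2 : ℚ) - q.2 : ℚ) : ℝ) * √2 = 0 := by
    push_cast
    linear_combination h
  obtain ⟨e1, e2⟩ := irr h1
  have e1' : (p.1 : ℚ) = q.1 := by linarith
  have e2' : (p.2 : ℚ) = q.2 := by linarith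
  exact Prod.ext (by exact_mod_cast e1') (by exact_mod_cast e2')

theorem sqrt_sq : √(2 : ℝ) * √2 = 2 := Real.mul_self_sqrt (by norm_num)

/-- nondegeneracy of the quadratic polynomial -/
theorem nondeg {k l k' l' a1 b1 a3 b3 : ℚ} (h : k ≠ 0 ∨ l ≠ 0) (h' : k' ≠ 0 ∨ l' ≠ 0)
    (h13 : a1 ≠ a3 ∨ b1 ≠ b3) (hA : l * k' - k * l' = 0)
    (hD : - l * (a1 * k' + 2 * b1 * l') - k' * (a3 * l + b3 * k) + k * (a1 * l' + b1 * k')
      + l' * (a3 * k + 2 * b3 * l) = 0)
    (hE : - k * (a1 * k' + 2 * b1 * l') - 2 * l' * (a3 * l + b3 * k)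
      + 2 * l * (a1 * l' + b1 * k') + k' * (a3 * k + 2 * b3 * l) = 0) : False := by
  obtain ⟨t, ht, hk, hl⟩ : ∃ t : ℚ, t ≠ 0 ∧ k' = t * k ∧ l' = t * l := by
    by_cases hk0 : k = 0
    · have hl0 : l ≠ 0 := by
        rcases h with h | h
        · exact absurd hk0 h
        · exact h
      have hk' : k' = 0 := by
        rw [hk0, zero_mul, sub_zero] at hA
        exact (mul_eq_zero.1 hA).resolve_left hl0
      have hl' : l' ≠ 0 := by
        rcases h' with h | h
        · exact absurd hk' h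
        · exact h
      refine ⟨l' / l, div_ne_zero hl' hl0, ?_, ?_⟩
      · rw [hk0, hk', mul_zero]
      · field_simp
    · have hk' : k' ≠ 0 := by
        intro hk'
        rw [hk', mul_zero, zero_sub, neg_eq_zero] at hA
        have := (mul_eq_zero.1 hA).resolve_left hk0
        rcases h' with h | h
        · exact h hk'
        · exact h this
      refine ⟨k' / k, div_ne_zero hk' hk0, ?_, ?_⟩
      · field_simp
      · field_simp
        linear_combination -hA
  have hN : k ^ 2 - 2 * l ^ 2 ≠ 0 := by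
    intro h0
    have h1 : ((k : ℚ) : ℝ) ^ 2 = 2 * (l : ℝ) ^ 2 := by
      have : (k : ℚ) ^ 2 = 2 * l ^ 2 := by linarith
      exact_mod_cast this
    have h2 : ((k : ℝ) - l * √2) * ((k : ℝ) + l * √2) = 0 := by
      have := sqrt_sq
      linear_combination h1 - (l : ℝ) ^ 2 * this
    rcases mul_eq_zero.1 h2 with h3 | h3
    · have : ((k : ℚ) : ℝ) + ((-l : ℚ) : ℝ) * √2 = 0 := by
        push_cast
        linear_combination h3
      obtain ⟨e1, e2⟩ := irr this
      rcases h with h | h
      · exact h e1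
      · exact h (neg_eq_zero.1 e2)
    · obtain ⟨e1, e2⟩ := irr h3
      rcases h with h | h
      · exact h e1
      · exact h e2
  have hD' : t * (b1 - b3) * (k ^ 2 - 2 * l ^ 2) = 0 := by
    rw [hk, hl] at hD
    linear_combination hD
  have hE' : t * (a3 - a1) * (k ^ 2 - 2 * l ^ 2) = 0 := by
    rw [hk, hl] at hE
    linear_combination hE
  have hb : b1 = b3 := by
    have := (mul_eq_zero.1 hD').resolve_right hN
    have := (mul_eq_zero.1 this).resolve_left ht
    linarith
  have ha : a1 = a3 := by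
    have := (mul_eq_zero.1 hE').resolve_right hN
    have := (mul_eq_zero.1 this).resolve_left ht
    linarith
  rcases h13 with h | h
  · exact h ha
  · exact h hb

/-- A nonconstant Möbius function `(α y + β) / (γ y + δ)` takes rational values at at most
`2 S + 3` points of the box `{a + b √2 : a, b < S}`. -/
theorem mobius_count {α β γ δ : ℝ} (h : α * δ - β * γ ≠ 0) (S : ℕ) (T : Finset (ℕ × ℕ))
    (hT : ∀ p ∈ T, p.1 < S ∧ p.2 < S)
    (h1 : ∀ p ∈ T, γ * val p + δ ≠ 0 ∧ ∃ q : ℚ, α * val p + β = q * (γ * val p + δ)) :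
    T.card ≤ 2 * S + 3 := by
  by_contra hcon
  push Not at hcon
  obtain ⟨p1, p2, p3, m1, m2, m3, h12, h13, h23⟩ :=
    Finset.two_lt_card_iff.1 (show 2 < T.card by omega)
  obtain ⟨w1, q1, e1⟩ := h1 p1 m1
  obtain ⟨w2, q2, e2⟩ := h1 p2 m2
  obtain ⟨w3, q3, e3⟩ := h1 p3 m3
  set k : ℚ := (p2.1 : ℚ) - p1.1 with hk
  set l : ℚ := (p2.2 : ℚ) - p1.2 with hl
  set k' : ℚ := (p2.1 : ℚ) - p3.1 with hk'
  set l' : ℚ := (p2.2 : ℚ) - p3.2 with hl'
  have hne : ∀ p q : ℕ × ℕ, p ≠ q → ((p.1 : ℚ) ≠ q.1 ∨ (p.2 : ℚ) ≠ q.2) := by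
    intro p q hpq
    by_contra hc
    push Not at hc
    exact hpq (Prod.ext (by exact_mod_cast hc.1) (by exact_mod_cast hc.2))
  have hkl : k ≠ 0 ∨ l ≠ 0 := by
    rcases hne p2 p1 (Ne.symm h12) with h | h
    · exact Or.inl (sub_ne_zero.2 h)
    · exact Or.inr (sub_ne_zero.2 h)
  have hkl' : k' ≠ 0 ∨ l' ≠ 0 := by
    rcases hne p2 p3 h23 with h | h
    · exact Or.inl (sub_ne_zero.2 h)
    · exact Or.inr (sub_ne_zero.2 h)
  have main : ∀ p ∈ T, (l * k' - k * l') * (p.1 : ℚ) ^ 2 + 0 * p.1 * p.2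
      + (-2 * (l * k' - k * l')) * (p.2 : ℚ) ^ 2
      + (- l * ((p1.1 : ℚ) * k' + 2 * p1.2 * l') - k' * ((p3.1 : ℚ) * l + p3.2 * k)
        + k * ((p1.1 : ℚ) * l' + p1.2 * k') + l' * ((p3.1 : ℚ) * k + 2 * p3.2 * l)) * p.1
      + (- k * ((p1.1 : ℚ) * k' + 2 * p1.2 * l') - 2 * l' * ((p3.1 : ℚ) * l + p3.2 * k)
      + 2 * l * ((p1.1 : ℚ) * l' + p1.2 * k') + k' * ((p3.1 : ℚ) * k + 2 * p3.2 * l)) * p.2
      + (((p3.1 : ℚ) * l + p3.2 * k) * ((p1.1 : ℚ) * k' + 2 * p1.2 * l')
        - ((p3.1 : ℚ) * k + 2 * p3.2 * l) * ((p1.1 : ℚ) * l' + p1.2 * k')) = 0 := by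
    intro p hp
    obtain ⟨w, q, e⟩ := h1 p hp
    -- the four differences
    set X' : ℚ := ((p.1 : ℚ) - p3.1) * k + 2 * ((p.2 : ℚ) - p3.2) * l with hX'
    set X'' : ℚ := ((p.1 : ℚ) - p3.1) * l + ((p.2 : ℚ) - p3.2) * k with hX''
    set Z' : ℚ := ((p.1 : ℚ) - p1.1) * k' + 2 * ((p.2 : ℚ) - p1.2) * l' with hZ'
    set Z'' : ℚ := ((p.1 : ℚ) - p1.1) * l' + ((p.2 : ℚ) - p1.2) * k' with hZ''
    have goal' : X'' * Z' - X' * Z'' = 0 := by
      by_cases hq : q = q1
      · -- then p = p1
        have : (α * δ - β * γ) * (val p - val p1) = 0 := by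
          have : (α * δ - β * γ) * (val p - val p1) =
              (α * val p + β) * (γ * val p1 + δ) - (α * val p1 + β) * (γ * val p + δ) := by ring
          rw [this, e, e1, hq]
          ring
        have hpp : p = p1 := val_inj (sub_eq_zero.1 ((mul_eq_zero.1 this).resolve_left h))
        have z1 : Z' = 0 := by rw [hZ', hpp]; ring
        have z2 : Z'' = 0 := by rw [hZ'', hpp]; ring
        rw [z1, z2]
        ring
      · have key : (((q - q1) * (q2 - q3) : ℚ) : ℝ) * ((val p - val p3) * (val p2 - val p1)) =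
            (((q - q3) * (q2 - q1) : ℚ) : ℝ) * ((val p - val p1) * (val p2 - val p3)) := by
          have d1 : (α * δ - β * γ) * (val p - val p1)
              = ((q : ℝ) - q1) * ((γ * val p + δ) * (γ * val p1 + δ)) := by
            have : (α * δ - β * γ) * (val p - val p1) =
              (α * val p + β) * (γ * val p1 + δ) - (α * val p1 + β) * (γ * val p + δ) := by ring
            rw [this, e, e1]
            ring
          have d2 : (α * δ - β * γ) * (val p2 - val p3)
              = ((q2 : ℝ) - q3) * ((γ * val p2 + δ) * (γ * val p3 + δ)) := by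
            have : (α * δ - β * γ) * (val p2 - val p3) =
              (α * val p2 + β) * (γ * val p3 + δ) - (α * val p3 + β) * (γ * val p2 + δ) := by ring
            rw [this, e2, e3]
            ring
          have d3 : (α * δ - β * γ) * (val p - val p3)
              = ((q : ℝ) - q3) * ((γ * val p + δ) * (γ * val p3 + δ)) := by
            have : (α * δ - β * γ) * (val p - val p3) =
              (α * val p + β) * (γ * val p3 + δ) - (α * val p3 + β) * (γ * val p + δ) := by ring
            rw [this, e, e3]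
            ring
          have d4 : (α * δ - β * γ) * (val p2 - val p1)
              = ((q2 : ℝ) - q1) * ((γ * val p2 + δ) * (γ * val p1 + δ)) := by
            have : (α * δ - β * γ) * (val p2 - val p1) =
              (α * val p2 + β) * (γ * val p1 + δ) - (α * val p1 + β) * (γ * val p2 + δ) := by ring
            rw [this, e2, e1]
            ring
          apply mul_left_cancel₀ (pow_ne_zero 2 h)
          push_cast
          calc (α * δ - β * γ) ^ 2 * (((q : ℝ) - q1) * (q2 - q3) *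
                ((val p - val p3) * (val p2 - val p1)))
              = ((q : ℝ) - q1) * (q2 - q3) * (((α * δ - β * γ) * (val p - val p3))
                * ((α * δ - β * γ) * (val p2 - val p1))) := by ring
            _ = ((q : ℝ) - q3) * (q2 - q1) * (((α * δ - β * γ) * (val p - val p1))
                * ((α * δ - β * γ) * (val p2 - val p3))) := by
                rw [d1, d2, d3, d4]; ring
            _ = _ := by ring
        set r1 : ℚ := (q - q1) * (q2 - q3) with hr1
        set r2 : ℚ := (q - q3) * (q2 - q1) with hr2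
        have hXe : (val p - val p3) * (val p2 - val p1) = (X' : ℝ) + X'' * √2 := by
          have := sqrt_sq
          rw [hX', hX'', hk, hl]
          unfold val
          push_cast
          linear_combination ((p.2 : ℝ) - p3.2) * ((p2.2 : ℝ) - p1.2) * this
        have hZe : (val p - val p1) * (val p2 - val p3) = (Z' : ℝ) + Z'' * √2 := by
          have := sqrt_sq
          rw [hZ', hZ'', hk', hl']
          unfold val
          push_cast
          linear_combination ((p.2 : ℝ) - p1.2) * ((p2.2 : ℝ) - p3.2) * this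
        rw [hXe, hZe] at key
        have key2 : ((r1 * X' - r2 * Z' : ℚ) : ℝ) + ((r1 * X'' - r2 * Z'' : ℚ) : ℝ) * √2 = 0 := by
          push_cast
          linear_combination key
        obtain ⟨f1, f2⟩ := irr key2
        have hq23 : q2 ≠ q3 := by
          intro hq23
          have : (α * δ - β * γ) * (val p2 - val p3) = 0 := by
            have : (α * δ - β * γ) * (val p2 - val p3) =
              (α * val p2 + β) * (γ * val p3 + δ) - (α * val p3 + β) * (γ * val p2 + δ) := by ring
            rw [this, e2, e3, hq23]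
            ring
          exact h23 (val_inj (sub_eq_zero.1 ((mul_eq_zero.1 this).resolve_left h)))
        have hr1' : r1 ≠ 0 := mul_ne_zero (sub_ne_zero.2 hq) (sub_ne_zero.2 hq23)
        apply mul_left_cancel₀ hr1'
        linear_combination Z' * f2 - Z'' * f1
    rw [hX', hX'', hZ', hZ''] at goal'
    linear_combination goal'
  have hcount : T.card ≤ 2 * S := by
    refine Pool.Agent.N394.RL.quad_box (A := (((l * k' - k * l' : ℚ)) : ℂ)) (B := 0)
      (C := ((-2 * (l * k' - k * l') : ℚ) : ℂ))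
      (D := (((- l * ((p1.1 : ℚ) * k' + 2 * p1.2 * l') - k' * ((p3.1 : ℚ) * l + p3.2 * k)
        + k * ((p1.1 : ℚ) * l' + p1.2 * k') + l' * ((p3.1 : ℚ) * k + 2 * p3.2 * l)) : ℚ) : ℂ))
      (E := (((- k * ((p1.1 : ℚ) * k' + 2 * p1.2 * l') - 2 * l' * ((p3.1 : ℚ) * l + p3.2 * k)
      + 2 * l * ((p1.1 : ℚ) * l' + p1.2 * k') + k' * ((p3.1 : ℚ) * k + 2 * p3.2 * l)) : ℚ) : ℂ))
      (F := ((((p3.1 : ℚ) * l + p3.2 * k) * ((p1.1 : ℚ) * k' + 2 * p1.2 * l')
        - ((p3.1 : ℚ) * k + 2 * p3.2 * l) * ((p1.1 : ℚ) * l' + p1.2 * k') : ℚ) : ℂ))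
      ?_ S T hT ?_
    · by_contra hcon2
      push Not at hcon2
      obtain ⟨c1, -, -, c4, c5⟩ := hcon2
      exact nondeg hkl hkl' (hne p1 p3 h13) (by exact_mod_cast c1) (by exact_mod_cast c4)
        (by exact_mod_cast c5)
    · intro p hp
      have := main p hp
      have h2 : (((l * k' - k * l') * (p.1 : ℚ) ^ 2 + 0 * p.1 * p.2
      + (-2 * (l * k' - k * l')) * (p.2 : ℚ) ^ 2
      + (- l * ((p1.1 : ℚ) * k' + 2 * p1.2 * l') - k' * ((p3.1 : ℚ) * l + p3.2 * k)
        + k * ((p1.1 : ℚ) * l' + p1.2 * k') + l' * ((p3.1 : ℚ) * k + 2 * p3.2 * l)) * p.1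
      + (- k * ((p1.1 : ℚ) * k' + 2 * p1.2 * l') - 2 * l' * ((p3.1 : ℚ) * l + p3.2 * k)
      + 2 * l * ((p1.1 : ℚ) * l' + p1.2 * k') + k' * ((p3.1 : ℚ) * k + 2 * p3.2 * l)) * p.2
      + (((p3.1 : ℚ) * l + p3.2 * k) * ((p1.1 : ℚ) * k' + 2 * p1.2 * l')
        - ((p3.1 : ℚ) * k + 2 * p3.2 * l) * ((p1.1 : ℚ) * l' + p1.2 * k')) : ℚ) : ℂ) = 0 := by
        rw [this]; simp
      push_cast at h2 ⊢
      linear_combination h2
  omega

end Pool.Agent.N394.NF
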