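import Mathlib
import Pool.Agent.N394.NF.Defs
import Pool.Agent.N394.NF.Mobius

set_option autoImplicit false

/-!
A projectively rational subset of the product of two boxes of `ℤ[√2]` is small.
-/

namespace Pool.Agent.N394.NF

open Finset

/-- the point `(a + b √2, ε (c + d √2))` -/
noncomputable def pt (ε : ℝ) (u : (ℕ × ℕ) × (ℕ × ℕ)) : ℝ × ℝ := (val u.1, ε * val u.2)

theorem pt_inj {ε : ℝ} (hε : ε ≠ 0) : Function.Injective (pt ε) := by
  rintro ⟨u, v⟩ ⟨u', v'⟩ h
  simp only [pt, Prod.mk.injEq] at h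
  exact Prod.ext (val_inj h.1) (val_inj (mul_left_cancel₀ hε h.2))

/-- the box -/
def box (R : ℕ) : Finset (ℕ × ℕ) := range R ×ˢ range R

theorem box_card (R : ℕ) : (box R).card = R ^ 2 := by
  unfold box
  rw [card_product, card_range]
  ring

/-- The product of two boxes of `ℤ[√2]`. -/
noncomputable def grid (ε : ℝ) (R S : ℕ) : Finset (ℝ × ℝ) := by
  classical
  exact (box R ×ˢ box S).image (pt ε)

theorem grid_card {ε : ℝ} (hε : ε ≠ 0) (R S : ℕ) : (grid ε R S).card = R ^ 2 * S ^ 2 := by
  classical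
  unfold grid
  rw [card_image_of_injective _ (pt_inj hε), card_product, box_card, box_card]

/-- Two vectors with independent images give a nonzero minor. -/
theorem minor_ne {M : Matrix (Fin 3) (Fin 3) ℝ} (hM : M.det ≠ 0) {ε : ℝ} (hε : ε ≠ 0) (x : ℝ)
    {y : ℝ} (hw : (M.mulVec ![x, ε * y, 1]) 2 ≠ 0) :
    (M 0 1 * ε) * (M 2 0 * x + M 2 2) - (M 0 0 * x + M 0 2) * (M 2 1 * ε) ≠ 0 ∨
    (M 1 1 * ε) * (M 2 0 * x + M 2 2) - (M 1 0 * x + M 1 2) * (M 2 1 * ε) ≠ 0 := by
  by_contra hcon
  push Not at hcon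
  obtain ⟨h1, h2⟩ := hcon
  have hw' : M 2 0 * x + M 2 1 * (ε * y) + M 2 2 ≠ 0 := by
    have : (M.mulVec ![x, ε * y, 1]) 2 = M 2 0 * x + M 2 1 * (ε * y) + M 2 2 := by
      simp [Matrix.mulVec, dotProduct, Fin.sum_univ_three]
    rwa [this] at hw
  -- the vector `e₁ * w₀ - w₁ * (x, 0, 1)` is in the kernel
  set w0 := M 2 0 * x + M 2 2 with hw0
  set w1 := M 2 1 * ε with hw1
  have hne : w0 ≠ 0 ∨ w1 ≠ 0 := by
    by_contra hc
    push Not at hc
    apply hw'
    have : M 2 0 * x + M 2 1 * (ε * y) + M 2 2 = w0 + w1 * y := by rw [hw0, hw1]; ring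
    rw [this, hc.1, hc.2]
    ring
  have hker : M.mulVec ![- w1 * x, ε * w0, - w1] = 0 := by
    funext i
    fin_cases i
    · simp [Matrix.mulVec, dotProduct, Fin.sum_univ_three]
      linear_combination h1
    · simp [Matrix.mulVec, dotProduct, Fin.sum_univ_three]
      linear_combination h2
    · simp [Matrix.mulVec, dotProduct, Fin.sum_univ_three]
      rw [hw0, hw1]
      ring
  have hz := Matrix.eq_zero_of_mulVec_eq_zero hM hker
  have z1 := congrFun hz 1
  have z2 := congrFun hz 2
  simp at z1 z2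
  rcases hne with h | h
  · rcases z1 with h' | h'
    · exact hε h'
    · exact h h'
  · exact h z2

/-- A projectively rational subset of the product of two boxes is small. -/
theorem small {ε : ℝ} (hε : ε ≠ 0) (R S : ℕ) (D : Finset (ℝ × ℝ)) (hD : D ⊆ grid ε R S)
    (hr : ProjectivelyRational D) : D.card ≤ R ^ 2 * (2 * S + 3) := by
  classical
  obtain ⟨M, hM, hmap⟩ := hr
  set U := (box R ×ˢ box S).filter fun u => pt ε u ∈ D with hU
  have hDU : D ⊆ U.image (pt ε) := by
    intro p hp
    have := hD hp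
    unfold grid at this
    obtain ⟨u, hu, rfl⟩ := mem_image.1 this
    exact mem_image.2 ⟨u, mem_filter.2 ⟨hu, hp⟩, rfl⟩
  refine (card_le_card hDU).trans (card_image_le.trans ?_)
  have := Finset.card_le_mul_card_image_of_maps_to (s := U) (t := box R)
    (f := Prod.fst) (fun u hu => (mem_product.1 (mem_filter.1 hu).1).1) (2 * S + 3) (by
      intro b _
      have hinj : Set.InjOn Prod.snd ((U.filter fun u => u.1 = b : Finset _) :
          Set ((ℕ × ℕ) × (ℕ × ℕ))) := by
        intro p hp q hq hpq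
        simp only [coe_filter, Set.mem_ofPred_eq] at hp hq
        exact Prod.ext (hp.2.trans hq.2.symm) hpq
      rw [← Finset.card_image_of_injOn hinj]
      by_cases hemp : (U.filter fun u => u.1 = b) = ∅
      · rw [hemp]; simp
      obtain ⟨u0, hu0⟩ := Finset.nonempty_iff_ne_empty.2 hemp
      rw [mem_filter, mem_filter] at hu0
      obtain ⟨x0, y0, hw0, -, -⟩ := hmap _ hu0.1.2
      have hbox : ∀ v ∈ (U.filter fun u => u.1 = b).image Prod.snd, v.1 < S ∧ v.2 < S := by
        intro v hv
        obtain ⟨u, hu, rfl⟩ := mem_image.1 hv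
        have := (mem_product.1 (mem_filter.1 (mem_filter.1 hu).1).1).2
        unfold box at this
        rw [mem_product, mem_range, mem_range] at this
        exact this
      have hall : ∀ v ∈ (U.filter fun u => u.1 = b).image Prod.snd,
          (M 2 1 * ε) * val v + (M 2 0 * val b + M 2 2) ≠ 0 ∧
          (∃ q : ℚ, (M 0 1 * ε) * val v + (M 0 0 * val b + M 0 2)
            = q * ((M 2 1 * ε) * val v + (M 2 0 * val b + M 2 2))) ∧
          (∃ q : ℚ, (M 1 1 * ε) * val v + (M 1 0 * val b + M 1 2)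
            = q * ((M 2 1 * ε) * val v + (M 2 0 * val b + M 2 2))) := by
        intro v hv
        obtain ⟨u, hu, rfl⟩ := mem_image.1 hv
        rw [mem_filter, mem_filter] at hu
        obtain ⟨x, y, hw, hx, hy⟩ := hmap _ hu.1.2
        have c0 : (M.mulVec ![(pt ε u).1, (pt ε u).2, 1]) 0
            = (M 0 1 * ε) * val u.2 + (M 0 0 * val b + M 0 2) := by
          rw [← hu.2]
          simp [Matrix.mulVec, dotProduct, Fin.sum_univ_three, pt]
          ring
        have c1 : (M.mulVec ![(pt ε u).1, (pt ε u).2, 1]) 1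
            = (M 1 1 * ε) * val u.2 + (M 1 0 * val b + M 1 2) := by
          rw [← hu.2]
          simp [Matrix.mulVec, dotProduct, Fin.sum_univ_three, pt]
          ring
        have c2 : (M.mulVec ![(pt ε u).1, (pt ε u).2, 1]) 2
            = (M 2 1 * ε) * val u.2 + (M 2 0 * val b + M 2 2) := by
          rw [← hu.2]
          simp [Matrix.mulVec, dotProduct, Fin.sum_univ_three, pt]
          ring
        rw [c2] at hw hx hy
        rw [c0] at hx
        rw [c1] at hy
        refine ⟨hw, ⟨x, ?_⟩, ⟨y, ?_⟩⟩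
        · rw [eq_div_iff hw] at hx
          exact hx.symm
        · rw [eq_div_iff hw] at hy
          exact hy.symm
      have hw0' : (M.mulVec ![val b, ε * val u0.2, 1]) 2 ≠ 0 := by
        rw [← hu0.2]
        exact hw0
      rcases minor_ne hM hε (val b) hw0' with hmin | hmin
      · exact mobius_count hmin S _ hbox fun v hv => ⟨(hall v hv).1, (hall v hv).2.1⟩
      · exact mobius_count hmin S _ hbox fun v hv => ⟨(hall v hv).1, (hall v hv).2.2⟩)
  rw [box_card] at this
  calc U.card ≤ (2 * S + 3) * R ^ 2 := this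
    _ = R ^ 2 * (2 * S + 3) := by ring

theorem rational_of_lattice {D : Finset (ℝ × ℝ)} {s : ℝ} (h : InLatticeSection D s) :
    ProjectivelyRational D := by
  obtain ⟨M, hM, a, b, -, h⟩ := h
  refine ⟨M, hM, fun p hp => ?_⟩
  obtain ⟨i, j, -, -, -, -, h'⟩ := h p hp
  exact ⟨i, j, by simpa using h'⟩

end Pool.Agent.N394.NF
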