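import Mathlib
import Pool.Agent.N394.NF.Grid

set_option autoImplicit false

/-!
The configuration over `ℤ[√2]` and the disproof of Q1.
-/

namespace Pool.Agent.N394.NF

open Finset

theorem lineOf_inj : Function.Injective lineOf := by
  intro d d' h
  have h0 : ((0 : ℝ), - d.2) ∈ lineOf d' := by
    rw [← h]
    show - d.2 = d.1 * 0 - d.2
    ring
  have h1 : ((1 : ℝ), d.1 - d.2) ∈ lineOf d' := by
    rw [← h]
    show d.1 - d.2 = d.1 * 1 - d.2
    ring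
  have e0 : - d.2 = d'.1 * 0 - d'.2 := h0
  have e1 : d.1 - d.2 = d'.1 * 1 - d'.2 := h1
  exact Prod.ext (by linarith) (by linarith)

theorem isLine_lineOf (d : ℝ × ℝ) : IsLine (lineOf d) := by
  refine ⟨d.1, -1, d.2, Or.inr (by norm_num), ?_⟩
  ext p
  unfold lineOf
  simp only [Set.mem_ofPred_eq]
  constructor <;> intro h <;> linarith

/-- the lines `y = s x + t`. -/
noncomputable def LL (R : ℕ) : Finset (Set (ℝ × ℝ)) := by
  classical
  exact (grid (-1) R (R ^ 2)).image lineOf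

/-- the points -/
noncomputable def PP (R : ℕ) : Finset (ℝ × ℝ) := grid 1 R (4 * R ^ 2)

theorem LL_card (R : ℕ) : (LL R).card = R ^ 6 := by
  classical
  unfold LL
  rw [card_image_of_injective _ lineOf_inj, grid_card (by norm_num)]
  ring

theorem PP_card (R : ℕ) : (PP R).card = 16 * R ^ 6 := by
  unfold PP
  rw [grid_card (by norm_num)]
  ring

theorem LL_isLine (R : ℕ) : ∀ l ∈ LL R, IsLine l := by
  classical
  intro l hl
  unfold LL at hl
  obtain ⟨d, -, rfl⟩ := mem_image.1 hl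
  exact isLine_lineOf d

theorem LL_dual (R : ℕ) (d : ℝ × ℝ) (h : lineOf d ∈ LL R) : d ∈ grid (-1) R (R ^ 2) := by
  classical
  unfold LL at h
  obtain ⟨d', hd', he⟩ := mem_image.1 h
  rwa [← lineOf_inj he]

theorem mul_val (u s t : ℕ × ℕ) : val s * val u + val t =
    val (s.1 * u.1 + 2 * (s.2 * u.2) + t.1, s.1 * u.2 + s.2 * u.1 + t.2) := by
  have := sqrt_sq
  unfold val
  push_cast
  linear_combination ((s.2 : ℝ) * u.2) * this

theorem many (R : ℕ) : R ^ 8 ≤ incidences (PP R) (LL R) := by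
  classical
  unfold incidences
  have hfin : {q : (ℝ × ℝ) × Set (ℝ × ℝ) | q.1 ∈ PP R ∧ q.2 ∈ LL R ∧ q.1 ∈ q.2}.Finite := by
    refine (Finset.finite_toSet (PP R ×ˢ LL R)).subset ?_
    rintro ⟨p, l⟩ ⟨h1, h2, -⟩
    rw [mem_coe, mem_product]
    exact ⟨h1, h2⟩
  have hcard : (box R ×ˢ (box R ×ˢ box (R ^ 2))).card = R ^ 8 := by
    rw [card_product, card_product, box_card, box_card]
    ring
  rw [← hcard, ← Set.ncard_coe_finset]
  refine Set.ncard_le_ncard_of_injOn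
    (fun w : (ℕ × ℕ) × ((ℕ × ℕ) × (ℕ × ℕ)) =>
      ((val w.1, val w.2.1 * val w.1 + val w.2.2), lineOf (val w.2.1, - val w.2.2))) ?_ ?_ hfin
  · rintro ⟨⟨c, d⟩, ⟨a, b⟩, ⟨e, f⟩⟩ hw
    simp only [box, coe_product, Set.mem_prod, coe_range, Set.mem_Iio] at hw
    obtain ⟨⟨hc, hd⟩, ⟨ha, hb⟩, he, hf⟩ := hw
    refine ⟨?_, ?_, ?_⟩
    · unfold PP grid
      refine mem_image.2 ⟨((c, d), (a * c + 2 * (b * d) + e, a * d + b * c + f)), ?_, ?_⟩
      · have h1 : a * c ≤ R * R := Nat.mul_le_mul ha.le hc.le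
        have h2 : b * d ≤ R * R := Nat.mul_le_mul hb.le hd.le
        have h3 : a * d ≤ R * R := Nat.mul_le_mul ha.le hd.le
        have h4 : b * c ≤ R * R := Nat.mul_le_mul hb.le hc.le
        have h5 : R ^ 2 = R * R := by ring
        simp only [box, mem_product, mem_range]
        rw [h5] at he hf ⊢
        refine ⟨⟨hc, hd⟩, ?_, ?_⟩ <;> omega
      · unfold pt
        rw [one_mul, ← mul_val (c, d) (a, b) (e, f)]
    · unfold LL grid
      refine mem_image_of_mem _ (mem_image.2 ⟨((a, b), (e, f)), ?_, ?_⟩)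
      · simp only [box, mem_product, mem_range]
        exact ⟨⟨ha, hb⟩, he, hf⟩
      · unfold pt
        rw [neg_one_mul]
    · show val (a, b) * val (c, d) + val (e, f) = val (a, b) * val (c, d) - (- val (e, f))
      ring
  · rintro ⟨u, s, t⟩ - ⟨u', s', t'⟩ - h
    simp only [Prod.mk.injEq] at h
    obtain ⟨⟨h1, -⟩, h2⟩ := h
    have h3 := lineOf_inj h2
    simp only [Prod.mk.injEq] at h3
    rw [val_inj h1, val_inj h3.1, val_inj (neg_injective h3.2)]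

theorem rpow_bound (R : ℕ) :
    (1 / 8 : ℝ) * ((16 * R ^ 6 : ℕ) : ℝ) ^ (2 / 3 : ℝ) * ((R ^ 6 : ℕ) : ℝ) ^ (2 / 3 : ℝ)
      ≤ (R : ℝ) ^ 8 := by
  have hR : (0 : ℝ) ≤ R := Nat.cast_nonneg R
  have h1 : ((R ^ 6 : ℕ) : ℝ) ^ (2 / 3 : ℝ) = (R : ℝ) ^ 4 := by
    push_cast
    rw [← Real.rpow_natCast, ← Real.rpow_mul hR, ← Real.rpow_natCast]
    norm_num
  have h2 : ((16 * R ^ 6 : ℕ) : ℝ) ^ (2 / 3 : ℝ) ≤ 8 * (R : ℝ) ^ 4 := by
    have e : (8 * (R : ℝ) ^ 4) = ((8 * (R : ℝ) ^ 4) ^ (3 / 2 : ℝ)) ^ (2 / 3 : ℝ) := by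
      rw [← Real.rpow_mul (by positivity)]
      norm_num
    rw [e]
    refine Real.rpow_le_rpow (by positivity) ?_ (by norm_num)
    rw [Real.mul_rpow (by norm_num) (by positivity)]
    have e2 : ((R : ℝ) ^ 4) ^ (3 / 2 : ℝ) = (R : ℝ) ^ 6 := by
      rw [← Real.rpow_natCast, ← Real.rpow_mul hR, ← Real.rpow_natCast]
      norm_num
    rw [e2]
    push_cast
    refine mul_le_mul_of_nonneg_right ?_ (by positivity)
    -- 16 ≤ 8 ^ (3/2)
    have e3 : (8 : ℝ) ^ (3 / 2 : ℝ) = 8 * √8 := by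
      rw [show (3 / 2 : ℝ) = 1 + 1 / 2 by norm_num, Real.rpow_add (by norm_num), Real.rpow_one,
        ← Real.sqrt_eq_rpow]
    rw [e3]
    have : (2 : ℝ) ≤ √8 := Real.le_sqrt_of_sq_le (by norm_num)
    linarith
  rw [h1]
  calc (1 / 8 : ℝ) * ((16 * R ^ 6 : ℕ) : ℝ) ^ (2 / 3 : ℝ) * (R : ℝ) ^ 4
      ≤ (1 / 8 : ℝ) * (8 * (R : ℝ) ^ 4) * (R : ℝ) ^ 4 := by
        refine mul_le_mul_of_nonneg_right ?_ (by positivity)
        exact mul_le_mul_of_nonneg_left h2 (by norm_num)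
    _ = (R : ℝ) ^ 8 := by ring

/-- The strong form: extremal configurations without projectively rational proportion. -/
theorem strong (c : ℝ) (hc : 0 < c) (N : ℕ) :
    ∃ (n : ℕ) (P : Finset (ℝ × ℝ)) (L : Finset (Set (ℝ × ℝ))),
      N ≤ n ∧ P.card = 16 * n ∧ L.card = n ∧ (∀ l ∈ L, IsLine l) ∧
      (1 / 8 : ℝ) * (P.card : ℝ) ^ (2 / 3 : ℝ) * (L.card : ℝ) ^ (2 / 3 : ℝ)
        ≤ (incidences P L : ℝ) ∧
      (∀ P' ⊆ P, c * (P.card : ℝ) ≤ (P'.card : ℝ) → ¬ ProjectivelyRational P') ∧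
      (∀ D : Finset (ℝ × ℝ), (∀ d ∈ D, lineOf d ∈ L) → c * (L.card : ℝ) ≤ (D.card : ℝ) →
        ¬ ProjectivelyRational D) := by
  obtain ⟨K, hK⟩ := exists_nat_gt (6 / c)
  set R := K + N + 2 with hR
  have hRpos : (1 : ℝ) ≤ R := by rw [hR]; push_cast; linarith [Nat.cast_nonneg (α := ℝ) K, Nat.cast_nonneg (α := ℝ) N]
  have hcR : 6 < c * R := by
    have : (K : ℝ) ≤ R := by rw [hR]; push_cast; linarith [Nat.cast_nonneg (α := ℝ) N]
    have h2 : 6 / c < R := lt_of_lt_of_le hK this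
    rwa [div_lt_iff₀ hc, mul_comm] at h2
  refine ⟨R ^ 6, PP R, LL R, ?_, PP_card R, LL_card R, LL_isLine R, ?_, ?_, ?_⟩
  · calc N ≤ R := by omega
      _ ≤ R ^ 6 := Nat.le_self_pow (by norm_num) R
  · rw [PP_card, LL_card]
    refine (rpow_bound R).trans ?_
    exact_mod_cast many R
  · intro P' hP' hcard hrat
    have h1 := small (one_ne_zero) R (4 * R ^ 2) P' hP' hrat
    rw [PP_card] at hcard
    have h2 : (P'.card : ℝ) ≤ (R : ℝ) ^ 2 * (2 * (4 * (R : ℝ) ^ 2) + 3) := by exact_mod_cast h1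
    push_cast at hcard
    have h3 : c * (16 * (R : ℝ) ^ 6) ≤ (R : ℝ) ^ 2 * (2 * (4 * (R : ℝ) ^ 2) + 3) := hcard.trans h2
    have h4 : 6 * (16 * (R : ℝ) ^ 5) < c * (16 * (R : ℝ) ^ 6) := by
      have : (0 : ℝ) < 16 * (R : ℝ) ^ 5 := by positivity
      calc 6 * (16 * (R : ℝ) ^ 5) < (c * R) * (16 * (R : ℝ) ^ 5) :=
            mul_lt_mul_of_pos_right hcR this
        _ = c * (16 * (R : ℝ) ^ 6) := by ring
    have h5 : (R : ℝ) ^ 4 ≤ (R : ℝ) ^ 5 := pow_le_pow_right₀ hRpos (by norm_num)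
    have h6 : (R : ℝ) ^ 2 ≤ (R : ℝ) ^ 5 := pow_le_pow_right₀ hRpos (by norm_num)
    have h7 : (0 : ℝ) < (R : ℝ) ^ 5 := by positivity
    nlinarith
  · intro D hD hcard hrat
    have hD' : D ⊆ grid (-1) R (R ^ 2) := fun d hd => LL_dual R d (hD d hd)
    have h1 := small (by norm_num) R (R ^ 2) D hD' hrat
    rw [LL_card] at hcard
    have h2 : (D.card : ℝ) ≤ (R : ℝ) ^ 2 * (2 * ((R : ℝ) ^ 2) + 3) := by exact_mod_cast h1
    push_cast at hcard
    have h3 : c * ((R : ℝ) ^ 6) ≤ (R : ℝ) ^ 2 * (2 * ((R : ℝ) ^ 2) + 3) := hcard.trans h2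
    have h4 : 6 * ((R : ℝ) ^ 5) < c * ((R : ℝ) ^ 6) := by
      have : (0 : ℝ) < (R : ℝ) ^ 5 := by positivity
      calc 6 * ((R : ℝ) ^ 5) < (c * R) * ((R : ℝ) ^ 5) :=
            mul_lt_mul_of_pos_right hcR this
        _ = c * ((R : ℝ) ^ 6) := by ring
    have h5 : (R : ℝ) ^ 4 ≤ (R : ℝ) ^ 5 := pow_le_pow_right₀ hRpos (by norm_num)
    have h6 : (R : ℝ) ^ 2 ≤ (R : ℝ) ^ 5 := pow_le_pow_right₀ hRpos (by norm_num)
    have h7 : (0 : ℝ) < (R : ℝ) ^ 5 := by positivity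
    nlinarith

theorem not_Q1 : ¬ Q1 := by
  intro h
  obtain ⟨c, C, hc, -, N, h⟩ := h 16 1 (1 / 8) (by norm_num) (by norm_num) (by norm_num)
  obtain ⟨n, P, L, hn, hP, hL, hline, hinc, ha, hb⟩ := strong c hc (N + 1)
  have hn1 : (1 : ℝ) ≤ n := by exact_mod_cast (by omega : 1 ≤ n)
  have hPc : (P.card : ℝ) = 16 * n := by rw [hP]; push_cast; ring
  have hLc : (L.card : ℝ) = n := by rw [hL]
  have g1 : (1 : ℝ) * √(n : ℝ) ≤ ((16 * n : ℕ) : ℝ) := by
    rw [one_mul]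
    push_cast
    have : √(n : ℝ) ≤ n := by
      rw [Real.sqrt_le_left (by linarith)]
      nlinarith
    linarith
  have g2 : ((16 * n : ℕ) : ℝ) ≤ 16 * (n : ℝ) ^ 2 := by
    push_cast
    nlinarith
  have g3 : (1 / 8 : ℝ) * ((16 * n : ℕ) : ℝ) ^ (2 / 3 : ℝ) * (n : ℝ) ^ (2 / 3 : ℝ)
      ≤ (incidences P L : ℝ) := by
    rw [← hP]
    rw [hLc] at hinc
    exact hinc
  rcases h (16 * n) n (by omega) (by omega) g1 g2 P L hP hL hline g3 with h | h
  · obtain ⟨P', hP', hcard, hlat⟩ := h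
    refine ha P' hP' ?_ (rational_of_lattice hlat)
    rw [hPc]
    push_cast at hcard
    exact hcard
  · obtain ⟨D, hD, hcard, hlat⟩ := h
    refine hb D hD ?_ (rational_of_lattice hlat)
    rw [hLc]
    exact hcard

end Pool.Agent.N394.NF
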